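import Pool.Agent.H16.GPS.HJ.Defs

/-!
JOB GPS-AVG (MP_c183ae_nt). Averages over sections, Markov, pigeonhole.

PROOFS. `dens_secL`, `dens_secR`: `A` is in bijection with the pairs (`y`, element of `secL A y`)
(`Equiv.sumArrowEquivProdArrow`), count both sides. `dens_map`: bijections preserve `dens`.
`markov_dens`: `∑ f ≤ #{f ≥ δ/2} + (δ/2) card`. `pigeon_dens`: a function from a set `Y` of density `≥ δ` to a finite type `T` has a
fibre of density `≥ δ / card T`. ~90 lines.
-/

set_option autoImplicit false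

open Finset

namespace Pool.Agent.H16.GPS

private theorem avg_card_eq {W X Y : Type} [Fintype W] [Fintype X] [Fintype Y]
    (e : W ≃ X × Y) (A : Finset W) (S : Y → Finset X)
    (hS : ∀ x y, x ∈ S y ↔ e.symm (x, y) ∈ A) :
    (#A : ℝ) = ∑ y : Y, (#(S y) : ℝ) := by
  classical
  have h1 : (#A : ℝ) = ∑ w : W, if w ∈ A then (1 : ℝ) else 0 := by simp
  have h2 : ∀ y : Y, (#(S y) : ℝ) = ∑ x : X, if e.symm (x, y) ∈ A then (1 : ℝ) else 0 := by
    intro y
    have : (#(S y) : ℝ) = ∑ x : X, if x ∈ S y then (1 : ℝ) else 0 := by simp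
    rw [this]
    refine Finset.sum_congr rfl (fun x _ => ?_)
    simp only [hS]
  rw [h1, ← Equiv.sum_comp e.symm (fun w => if w ∈ A then (1 : ℝ) else 0),
    Fintype.sum_prod_type_right]
  exact Finset.sum_congr rfl (fun y _ => (h2 y).symm)

theorem dens_secL {α ι κ : Type} [Fintype α] [Nonempty α] [Fintype ι] [DecidableEq ι] [Fintype κ]
    [DecidableEq κ] (A : Finset (ι ⊕ κ → α)) :
    dens A = (∑ y : κ → α, dens (secL A y)) / (Fintype.card (κ → α) : ℝ) := by
  have h1 := avg_card_eq (Equiv.sumArrowEquivProdArrow ι κ α) A (fun y => secL A y)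
    (fun x y => by rw [mem_secL]; rfl)
  have h2 : Fintype.card (ι ⊕ κ → α) = Fintype.card (ι → α) * Fintype.card (κ → α) := by
    rw [← Fintype.card_prod]
    exact Fintype.card_congr (Equiv.sumArrowEquivProdArrow ι κ α)
  unfold dens
  rw [h1, h2, ← Finset.sum_div, div_div]
  push_cast
  rfl

theorem dens_secR {α ι κ : Type} [Fintype α] [Nonempty α] [Fintype ι] [DecidableEq ι] [Fintype κ]
    [DecidableEq κ] (A : Finset (ι ⊕ κ → α)) :
    dens A = (∑ x : ι → α, dens (secR A x)) / (Fintype.card (ι → α) : ℝ) := by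
  have h1 := avg_card_eq ((Equiv.sumArrowEquivProdArrow ι κ α).trans (Equiv.prodComm _ _)) A
    (fun x => secR A x) (fun y x => by rw [mem_secR]; rfl)
  have h2 : Fintype.card (ι ⊕ κ → α) = Fintype.card (κ → α) * Fintype.card (ι → α) := by
    rw [← Fintype.card_prod]
    exact Fintype.card_congr ((Equiv.sumArrowEquivProdArrow ι κ α).trans (Equiv.prodComm _ _))
  unfold dens
  rw [h1, h2, ← Finset.sum_div, div_div]
  push_cast
  rfl

theorem dens_map {X Y : Type} [Fintype X] [Fintype Y] (e : X ≃ Y) (A : Finset X) :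
    dens (A.map e.toEmbedding) = dens A := by
  unfold dens
  rw [Finset.card_map, Fintype.card_congr e]

theorem markov_dens {X : Type} [Fintype X] (f : X → ℝ) (δ : ℝ) (hδ : 0 ≤ δ) (hf : ∀ x, f x ≤ 1)
    (h : δ ≤ (∑ x, f x) / (Fintype.card X : ℝ)) :
    δ / 2 ≤ dens (univ.filter (fun x => δ / 2 ≤ f x)) := by
  classical
  rcases Nat.eq_zero_or_pos (Fintype.card X) with h0 | h0
  · rw [h0] at h
    have h1 : δ ≤ 0 := by simpa using h
    have h2 : δ = 0 := le_antisymm h1 hδ
    have h3 := dens_nonneg (univ.filter (fun x => δ / 2 ≤ f x))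
    rw [h2] at h3 ⊢
    simpa using h3
  · have hN : (0 : ℝ) < Fintype.card X := by exact_mod_cast h0
    rw [le_div_iff₀ hN] at h
    have hsum : ∑ x, f x ≤ ∑ x : X, ((if δ / 2 ≤ f x then (1 : ℝ) else 0) + δ / 2) := by
      refine Finset.sum_le_sum (fun x _ => ?_)
      split_ifs with hx
      · linarith [hf x]
      · push Not at hx
        linarith
    rw [Finset.sum_add_distrib, Finset.sum_boole, Finset.sum_const, Finset.card_univ,
      nsmul_eq_mul] at hsum
    unfold dens
    rw [le_div_iff₀ hN]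
    linarith

theorem pigeon_dens {X T : Type} [Fintype X] [Fintype T] [DecidableEq T] (Y : Finset X) (δ : ℝ)
    (hδ : 0 < δ) (hY : δ ≤ dens Y) (φ : X → T) :
    ∃ t : T, δ / (Fintype.card T : ℝ) ≤ dens (Y.filter (fun x => φ x = t)) := by
  classical
  by_contra hcon
  push Not at hcon
  have hX : Nonempty X := by
    by_contra hne
    rw [not_nonempty_iff] at hne
    have : dens Y = 0 := by
      unfold dens
      have : Fintype.card X = 0 := Fintype.card_eq_zero
      rw [this]
      simp
    linarith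
  have hT : Nonempty T := ⟨φ hX.some⟩
  have hTpos : (0 : ℝ) < Fintype.card T := by exact_mod_cast Fintype.card_pos
  have h1 : ∑ t : T, dens (Y.filter (fun x => φ x = t)) = dens Y := by
    unfold dens
    rw [← Finset.sum_div]
    congr 1
    have := Finset.card_eq_sum_card_fiberwise (f := φ) (s := Y) (t := univ)
      (fun x _ => Finset.mem_coe.2 (Finset.mem_univ _))
    rw [this]
    push_cast
    rfl
  have h2 : ∑ t : T, dens (Y.filter (fun x => φ x = t)) < ∑ _t : T, δ / (Fintype.card T : ℝ) :=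
    Finset.sum_lt_sum_of_nonempty Finset.univ_nonempty (fun t _ => hcon t)
  rw [h1, Finset.sum_const, Finset.card_univ, nsmul_eq_mul, mul_div_cancel₀ _ hTpos.ne'] at h2
  linarith

end Pool.Agent.H16.GPS
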