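import Pool.Agent.H16.GPS.HJ.Defs
import Pool.Agent.H81.DH.Opt

/-!
GPS (MP_c183ae_nt). Density Hales-Jewett theorem, from the library `Pool/Agent/H81/DH` (helper81's project), where it
is proved for indicator functions of sets (`dn`) and one index type. `dens` is the same density for finite sets.
-/

set_option autoImplicit false

open Finset

namespace Pool.Agent.H16.GPS

theorem hjm_dn {X : Type} [Fintype X] (A : Finset X) :
    Pool.Agent.H81.DH.dn (A : Set X) = dens A := by
  classical
  unfold Pool.Agent.H81.DH.dn dens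
  congr 1
  have h1 : ∀ x : X, Pool.Agent.H81.DH.ind (A : Set X) x = if x ∈ A then (1 : ℝ) else 0 := by
    intro x
    by_cases hx : x ∈ A
    · rw [Pool.Agent.H81.DH.ind_of_mem (A := (A : Set X)) (by exact_mod_cast hx), if_pos hx]
    · rw [Pool.Agent.H81.DH.ind_of_notMem (A := (A : Set X)) (by exact_mod_cast hx), if_neg hx]
  rw [Finset.sum_congr rfl fun x _ => h1 x, Finset.sum_ite_mem, Finset.univ_inter,
    Finset.sum_const, nsmul_eq_mul, mul_one]

/-- multidimensional density Hales-Jewett theorem for every nonempty finite alphabet -/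
theorem mdhj_all (α : Type) [Fintype α] [Nonempty α] : MDHJ α := by
  intro m δ hδ
  obtain ⟨n, hn⟩ := Pool.Agent.H81.DH.mdhj (Pool.Agent.H81.DH.dhj α) (Fin m) hδ
  refine ⟨n, fun ι _ _ hι A hA => ?_⟩
  obtain ⟨V, hV⟩ := hn ι hι (A : Set (ι → α)) (by rw [hjm_dn]; exact hA)
  exact ⟨V, fun x => by exact_mod_cast hV x⟩

/-- density Hales-Jewett theorem for every nonempty finite alphabet -/
theorem dhj_all (α : Type) [Fintype α] [Nonempty α] : DHJ α := by
  intro δ hδ
  obtain ⟨n, hn⟩ := mdhj_all α 1 δ hδ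
  refine ⟨n, fun ι _ _ hι A hA => ?_⟩
  obtain ⟨V, hV⟩ := hn ι hι A hA
  refine ⟨⟨fun i => (V.idxFun i).elim some (fun _ => none), ?_⟩, fun x => ?_⟩
  · obtain ⟨i, hi⟩ := V.proper 0
    exact ⟨i, by rw [hi]; rfl⟩
  · have h1 := hV (fun _ => x)
    convert h1 using 1
    funext i
    rw [Combinatorics.Line.coe_apply, Combinatorics.Subspace.apply_def]
    cases h : V.idxFun i <;> simp [h]

theorem dhj (k : ℕ) (hk : 1 ≤ k) : DHJ (Fin k) := by
  have : Nonempty (Fin k) := ⟨⟨0, hk⟩⟩
  exact dhj_all (Fin k)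

end Pool.Agent.H16.GPS
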