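import Pool.Agent.H16.GPS.HJ.Avg
import Pool.Agent.H16.GPS.Rel.Laws

/-!
JOB GPS-DENSE (MP_c183ae_nt). Szemerédi-type lower bound for dense functions from density Hales-Jewett.

PROOF. Let `n` be the dimension of `DHJ (Fin κ)` for `δ/4` (with `ι = Fin n`; enlarge it so that `n ≥ 1`, `line_mono`),
`c₁ = n^{-κ} (κ+1)^{-n} (δ/2) (δ/4)^κ`. Write everything as averages over uniform finite types.
(1) For `ζ : Fin n → Fin κ → Ξ` put `u l = ∑ i, b (ζ l i) : Γ`. For `A : Θ`, `x : Γ` and a word `w : Fin n → Fin κ` put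
`G(A,x,ζ,w) = g (A, x + ∑ l, (w l : ℕ) • u l)`. For fixed `ζ, w` translation invariance gives `avg_{A,x} G = avg g ≥ δ`. So
(`markov`) for at least a proportion `δ/2` of the triples `(A,x,ζ)` one has `avg_w G ≥ δ/2`, and then
`{w | G ≥ δ/4}` has density `≥ δ/4` and contains a line `l`: `∏_{j : Fin κ} G(A,x,ζ,l j) ≥ (δ/4)^κ`. The number of lines is
`≤ (κ+1)^n`, so for some line `l` the average over `(A,x,ζ)` of `∏ j, G(A,x,ζ,l j)` is `≥ (δ/2)(δ/4)^κ (κ+1)^{-n}`.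
With `J` = variable set of `l` (nonempty), `l j = fixed letters + j on J`: `x + ∑ l', (l j)(l') u l' = x' + j d`,
`d = ∑_{l' ∈ J} u l'`, `x' = x + (fixed part)`; translate: the average equals
`avg_{A,x,ζ} ∏ j, g (A, x + j • ∑_{l' ∈ J} ∑_i b (ζ l' i))`, and it only depends on `r = #J ∈ [1,n]`.
(2) `Lam κ (lawN n b) g`: by `sum_lawU` (for each of the `κ` coordinates) it is the average over `(A,x)` and
`(r_i, ξ_i) ∈ Fin n × (Fin n → Ξ)`, `i : Fin κ`, of `∏ j, g (A, x + LL j h)`, `h i = ∑_{l ≤ r_i} b (ξ_i l)`. As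
`LL j h = j • (∑ i, h i) - ∑ i, i • h i`, translate `x`: `∏ j, g (A, x + j • ∑ i, h i)`. All terms are `≥ 0`; keep only
`r_i = r - 1` for all `i` (a proportion `n^{-κ}`, these `h i` are sums of exactly `r` terms): the average becomes the one of (1)
after relabelling the independent uniform variables (a bijection of `J` with `{0..r-1}`; unused variables average out).
~250 lines.
-/

set_option autoImplicit false

open Finset

namespace Pool.Agent.H16.GPS

/-- product weights of `lawU` are the push-forward of the uniform measure -/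
private theorem dn_lawU_pi {Ω Γ ι : Type} [Fintype Ω] [Fintype Γ] [Fintype ι] [DecidableEq ι]
    (β : Ω → Γ) (Φ : (ι → Γ) → ℝ) :
    ∑ h : ι → Γ, (∏ i, lawU β (h i)) * Φ h =
      (∑ ω : ι → Ω, Φ (fun i => β (ω i))) / (Fintype.card Ω : ℝ) ^ (Fintype.card ι) := by
  classical
  have h1 : ∀ h : ι → Γ, (∏ i, lawU β (h i)) =
      (#(univ.filter (fun ω : ι → Ω => (fun i => β (ω i)) = h)) : ℝ) /
        (Fintype.card Ω : ℝ) ^ (Fintype.card ι) := by
    intro h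
    have h2 : ∀ i, lawU β (h i) =
        (#(univ.filter (fun ξ => β ξ = h i)) : ℝ) / (Fintype.card Ω : ℝ) := by
      intro i
      unfold lawU
      congr!
    simp only [h2]
    rw [Finset.prod_div_distrib, Finset.prod_const, Finset.card_univ]
    congr 1
    rw [← Nat.cast_prod, ← Fintype.card_piFinset]
    congr 2
    ext ω
    simp [Fintype.mem_piFinset, funext_iff]
  have h3 : ∀ h : ι → Γ, (∏ i, lawU β (h i)) * Φ h =
      (∑ ω ∈ univ.filter (fun ω : ι → Ω => (fun i => β (ω i)) = h), Φ (fun i => β (ω i))) /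
        (Fintype.card Ω : ℝ) ^ (Fintype.card ι) := by
    intro h
    have h4 : ∑ ω ∈ univ.filter (fun ω : ι → Ω => (fun i => β (ω i)) = h),
        Φ (fun i => β (ω i)) =
        ∑ ω ∈ univ.filter (fun ω : ι → Ω => (fun i => β (ω i)) = h), Φ h := by
      refine Finset.sum_congr rfl (fun ω hω => ?_)
      rw [(Finset.mem_filter.1 hω).2]
    rw [h1, h4, Finset.sum_const, nsmul_eq_mul]
    ring
  rw [Finset.sum_congr rfl (fun h _ => h3 h), ← Finset.sum_div, Finset.sum_fiberwise]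

/-- translation invariance of the sum over `Θ × Γ` -/
private theorem dn_trans {Θ Γ : Type} [Fintype Θ] [Fintype Γ] [AddCommGroup Γ] (v : Γ)
    (F : Θ × Γ → ℝ) : ∑ p : Θ × Γ, F (p.1, p.2 + v) = ∑ p : Θ × Γ, F p :=
  Equiv.sum_comp (Equiv.prodCongr (Equiv.refl Θ) (Equiv.addRight v)) F

/-- the number of progressions with difference `H`, weighted by `g` -/
private noncomputable def dnPsi {Θ Γ : Type} [Fintype Θ] [Fintype Γ] [AddCommGroup Γ] (κ : ℕ)
    (g : Θ × Γ → ℝ) (H : Γ) : ℝ :=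
  ∑ p : Θ × Γ, ∏ j : Fin κ, g (p.1, p.2 + (j : ℕ) • H)

private theorem dnPsi_nonneg {Θ Γ : Type} [Fintype Θ] [Fintype Γ] [AddCommGroup Γ] (κ : ℕ)
    (g : Θ × Γ → ℝ) (hg : ∀ p, 0 ≤ g p) (H : Γ) : 0 ≤ dnPsi κ g H :=
  Finset.sum_nonneg (fun _ _ => Finset.prod_nonneg (fun _ _ => hg _))

private theorem dnPsi_shift {Θ Γ : Type} [Fintype Θ] [Fintype Γ] [AddCommGroup Γ] (κ : ℕ)
    (g : Θ × Γ → ℝ) (H v : Γ) :
    ∑ p : Θ × Γ, ∏ j : Fin κ, g (p.1, p.2 + (v + (j : ℕ) • H)) = dnPsi κ g H := by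
  unfold dnPsi
  rw [← dn_trans v (fun p : Θ × Γ => ∏ j : Fin κ, g (p.1, p.2 + (j : ℕ) • H))]
  refine Finset.sum_congr rfl (fun p _ => Finset.prod_congr rfl (fun j _ => ?_))
  rw [add_assoc]

private theorem dn_LL {Γ : Type} [AddCommGroup Γ] {κ : ℕ} (j : Fin κ) (h : Fin κ → Γ) :
    LL j h = -(∑ i : Fin κ, (i : ℕ) • h i) + (j : ℕ) • ∑ i : Fin κ, h i := by
  unfold LL
  rw [Finset.smul_sum, ← Finset.sum_neg_distrib, ← Finset.sum_add_distrib]
  refine Finset.sum_congr rfl (fun i _ => ?_)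
  rw [sub_smul, natCast_zsmul, natCast_zsmul]
  abel

private theorem dn_Lam {Θ Γ Ω : Type} [Fintype Θ] [Fintype Γ] [AddCommGroup Γ] [Fintype Ω]
    (κ : ℕ) (β : Ω → Γ) (g : Θ × Γ → ℝ) :
    Lam κ (lawU β) g = (∑ ω : Fin κ → Ω, dnPsi κ g (∑ i, β (ω i))) /
      ((Fintype.card (Θ × Γ) : ℝ) * (Fintype.card Ω : ℝ) ^ κ) := by
  unfold Lam EE
  have h1 : ∀ p : Θ × Γ, unif (Θ × Γ) p *
      ∑ h : Fin κ → Γ, (∏ i, lawU β (h i)) * ∏ j : Fin κ, g (p.1, p.2 + LL j h) =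
      (∑ ω : Fin κ → Ω, ∏ j : Fin κ, g (p.1, p.2 + LL j (fun i => β (ω i)))) /
      ((Fintype.card (Θ × Γ) : ℝ) * (Fintype.card Ω : ℝ) ^ κ) := by
    intro p
    rw [dn_lawU_pi β (fun h => ∏ j : Fin κ, g (p.1, p.2 + LL j h)), Fintype.card_fin]
    unfold unif
    rw [div_mul_div_comm, one_mul]
  rw [Finset.sum_congr rfl (fun p _ => h1 p), ← Finset.sum_div, Finset.sum_comm]
  congr 1
  refine Finset.sum_congr rfl (fun ω _ => ?_)
  rw [← dnPsi_shift κ g (∑ i, β (ω i)) (-(∑ i : Fin κ, (i : ℕ) • β (ω i)))]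
  refine Finset.sum_congr rfl (fun p _ => Finset.prod_congr rfl (fun j _ => ?_))
  rw [dn_LL]

/-- the function evaluated at a word -/
private noncomputable def dnG {Θ Γ Ξ : Type} [AddCommGroup Γ] {n κ : ℕ} (b : Ξ → Γ)
    (g : Θ × Γ → ℝ) (t : (Θ × Γ) × (Fin n → Fin κ → Ξ)) (w : Fin n → Fin κ) : ℝ :=
  g (t.1.1, t.1.2 + ∑ i, ((w i : Fin κ) : ℕ) • ∑ m, b (t.2 i m))

private theorem dn_sum_G {Θ Γ Ξ : Type} [Fintype Θ] [Fintype Γ] [AddCommGroup Γ] [Fintype Ξ]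
    {n κ : ℕ} (b : Ξ → Γ) (g : Θ × Γ → ℝ) (w : Fin n → Fin κ) :
    ∑ t : (Θ × Γ) × (Fin n → Fin κ → Ξ), dnG b g t w =
      (Fintype.card (Fin n → Fin κ → Ξ) : ℝ) * ∑ p, g p := by
  rw [Fintype.sum_prod_type_right]
  have h1 : ∀ ζ : Fin n → Fin κ → Ξ, ∑ p : Θ × Γ, dnG b g (p, ζ) w = ∑ p, g p := fun ζ =>
    dn_trans (∑ i, ((w i : Fin κ) : ℕ) • ∑ m, b (ζ i m)) g
  rw [Finset.sum_congr rfl (fun ζ _ => h1 ζ), Finset.sum_const, Finset.card_univ, nsmul_eq_mul]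

/-- a line with many monochromatic translates -/
private theorem dn_line {Θ Γ Ξ : Type} [Fintype Θ] [Nonempty Θ] [Fintype Γ] [AddCommGroup Γ]
    [Fintype Ξ] [Nonempty Ξ] {n κ : ℕ} (hκ : 1 ≤ κ) (hn1 : 1 ≤ n) (δ : ℝ) (hδ : 0 < δ)
    (hn : ∀ A : Finset (Fin n → Fin κ), δ / 2 / 2 ≤ dens A →
      ∃ l : Combinatorics.Line (Fin κ) (Fin n), ∀ x : Fin κ, l x ∈ A)
    (b : Ξ → Γ) (g : Θ × Γ → ℝ) (hg : ∀ p, 0 ≤ g p ∧ g p ≤ 1)
    (hav : δ ≤ ∑ p, unif (Θ × Γ) p * g p) :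
    ∃ l : Combinatorics.Line (Fin κ) (Fin n),
      δ / 2 / (Fintype.card (Fin n → Option (Fin κ)) : ℝ) * (δ / 2 / 2) ^ κ *
        (Fintype.card ((Θ × Γ) × (Fin n → Fin κ → Ξ)) : ℝ) ≤
      ∑ t : (Θ × Γ) × (Fin n → Fin κ → Ξ), ∏ j : Fin κ, dnG b g t (l j) := by
  classical
  have : Nonempty (Fin κ) := ⟨⟨0, hκ⟩⟩
  have : Nonempty (Combinatorics.Line (Fin κ) (Fin n)) := ⟨⟨fun _ => none, ⟨⟨0, hn1⟩, rfl⟩⟩⟩
  have hW : (0 : ℝ) < Fintype.card (Fin n → Fin κ) := by exact_mod_cast Fintype.card_pos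
  have hZ : (0 : ℝ) < Fintype.card (Fin n → Fin κ → Ξ) := by exact_mod_cast Fintype.card_pos
  have hP : (0 : ℝ) < Fintype.card (Θ × Γ) := by exact_mod_cast Fintype.card_pos
  have hT : (0 : ℝ) < Fintype.card ((Θ × Γ) × (Fin n → Fin κ → Ξ)) := by
    exact_mod_cast Fintype.card_pos
  have hG0 : ∀ t w, 0 ≤ dnG (n := n) (κ := κ) b g t w := fun t w => (hg _).1
  have hG1 : ∀ t w, dnG (n := n) (κ := κ) b g t w ≤ 1 := fun t w => (hg _).2
  -- the average of `f`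
  set f : (Θ × Γ) × (Fin n → Fin κ → Ξ) → ℝ :=
    fun t => (∑ w : Fin n → Fin κ, dnG b g t w) / (Fintype.card (Fin n → Fin κ) : ℝ) with hf
  have hf1 : ∀ t, f t ≤ 1 := by
    intro t
    rw [hf]
    simp only
    rw [div_le_one hW]
    calc ∑ w : Fin n → Fin κ, dnG b g t w ≤ ∑ _w : Fin n → Fin κ, (1 : ℝ) :=
          Finset.sum_le_sum (fun w _ => hG1 t w)
      _ = _ := by rw [Finset.sum_const, Finset.card_univ, nsmul_eq_mul, mul_one]
  have hfav : δ ≤ (∑ t, f t) / (Fintype.card ((Θ × Γ) × (Fin n → Fin κ → Ξ)) : ℝ) := by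
    have e1 : ∑ t, f t = (Fintype.card (Fin n → Fin κ → Ξ) : ℝ) * ∑ p, g p := by
      rw [hf]
      simp only
      rw [← Finset.sum_div, Finset.sum_comm, Finset.sum_congr rfl (fun w _ => dn_sum_G b g w),
        Finset.sum_const, Finset.card_univ, nsmul_eq_mul]
      field_simp
    have e2 : ∑ p, unif (Θ × Γ) p * g p = (∑ p, g p) / (Fintype.card (Θ × Γ) : ℝ) := by
      unfold unif
      rw [← Finset.mul_sum]
      ring
    rw [e2] at hav
    rw [e1, Fintype.card_prod (Θ × Γ)]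
    push_cast
    rw [mul_comm (Fintype.card (Θ × Γ) : ℝ), mul_div_mul_left _ _ hZ.ne']
    exact hav
  have hY := markov_dens f δ hδ.le hf1 hfav
  -- lines
  have hline : ∀ t ∈ univ.filter (fun t => δ / 2 ≤ f t),
      ∃ l : Combinatorics.Line (Fin κ) (Fin n), ∀ x : Fin κ, δ / 2 / 2 ≤ dnG b g t (l x) := by
    intro t ht
    have h1 := markov_dens (fun w => dnG b g t w) (δ / 2) (by linarith) (hG1 t)
      (Finset.mem_filter.1 ht).2
    obtain ⟨l, hl⟩ := hn _ h1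
    exact ⟨l, fun x => (Finset.mem_filter.1 (hl x)).2⟩
  choose! L hL using hline
  obtain ⟨T0, hT0⟩ := pigeon_dens (univ.filter (fun t => δ / 2 ≤ f t)) (δ / 2) (by linarith) hY
    (fun t => (L t).idxFun)
  have hcT : (0 : ℝ) < Fintype.card (Fin n → Option (Fin κ)) := by
    exact_mod_cast Fintype.card_pos
  -- the fibre is nonempty
  set B := (univ.filter (fun t => δ / 2 ≤ f t)).filter (fun t => (L t).idxFun = T0) with hB
  have hBne : B.Nonempty := by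
    by_contra hne
    rw [Finset.not_nonempty_iff_eq_empty] at hne
    rw [hne] at hT0
    unfold dens at hT0
    rw [Finset.card_empty, Nat.cast_zero, zero_div] at hT0
    have : 0 < δ / 2 / (Fintype.card (Fin n → Option (Fin κ)) : ℝ) := by positivity
    linarith
  obtain ⟨t0, ht0⟩ := hBne
  refine ⟨L t0, ?_⟩
  have hB1 : ∀ t ∈ B, (δ / 2 / 2) ^ κ ≤ ∏ j : Fin κ, dnG b g t ((L t0) j) := by
    intro t ht
    have h1 := Finset.mem_filter.1 ht
    have h2 := Finset.mem_filter.1 ht0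
    have h3 : ∀ x : Fin κ, (L t0) x = (L t) x := by
      intro x
      funext i
      change ((L t0).idxFun i).getD x = ((L t).idxFun i).getD x
      rw [h1.2, h2.2]
    calc (δ / 2 / 2) ^ κ = ∏ _j : Fin κ, (δ / 2 / 2) := by
          rw [Finset.prod_const, Finset.card_univ, Fintype.card_fin]
      _ ≤ ∏ j : Fin κ, dnG b g t ((L t0) j) := by
          refine Finset.prod_le_prod (fun j _ => by positivity) (fun j _ => ?_)
          rw [h3]
          exact hL t h1.1 j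
  have hBs : (#B : ℝ) * (δ / 2 / 2) ^ κ ≤
      ∑ t : (Θ × Γ) × (Fin n → Fin κ → Ξ), ∏ j : Fin κ, dnG b g t ((L t0) j) := by
    calc (#B : ℝ) * (δ / 2 / 2) ^ κ = ∑ _t ∈ B, (δ / 2 / 2) ^ κ := by
          rw [Finset.sum_const, nsmul_eq_mul]
      _ ≤ ∑ t ∈ B, ∏ j : Fin κ, dnG b g t ((L t0) j) := Finset.sum_le_sum hB1
      _ ≤ _ := Finset.sum_le_sum_of_subset_of_nonneg (Finset.subset_univ _)
          (fun t _ _ => Finset.prod_nonneg (fun j _ => hG0 t _))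
  refine le_trans ?_ hBs
  unfold dens at hT0
  rw [le_div_iff₀ hT] at hT0
  have hpow : 0 ≤ (δ / 2 / 2) ^ κ := by positivity
  calc δ / 2 / (Fintype.card (Fin n → Option (Fin κ)) : ℝ) * (δ / 2 / 2) ^ κ *
        (Fintype.card ((Θ × Γ) × (Fin n → Fin κ → Ξ)) : ℝ)
      = (δ / 2 / (Fintype.card (Fin n → Option (Fin κ)) : ℝ) *
        (Fintype.card ((Θ × Γ) × (Fin n → Fin κ → Ξ)) : ℝ)) * (δ / 2 / 2) ^ κ := by ring
    _ ≤ (#B : ℝ) * (δ / 2 / 2) ^ κ := mul_le_mul_of_nonneg_right hT0 hpow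

/-- equal sized sets are related by a permutation -/
private theorem dn_perm {n : ℕ} (J I : Finset (Fin n)) (h : #J = #I) :
    ∃ e : Equiv.Perm (Fin n), ∀ i, i ∈ J ↔ e i ∈ I := by
  classical
  have e0 : {x // x ∈ J} ≃ {x // x ∈ I} := Finset.equivOfCardEq h
  refine ⟨e0.extendSubtype, fun i => ?_⟩
  constructor
  · intro hi
    exact e0.extendSubtype_mem i hi
  · intro hi
    by_contra hni
    exact e0.extendSubtype_not_mem i hni hi

/-- the product over a line, summed over everything -/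
private theorem dn_line_sum {Θ Γ Ξ : Type} [Fintype Θ] [Fintype Γ] [AddCommGroup Γ]
    [Fintype Ξ] {n κ : ℕ} (b : Ξ → Γ) (g : Θ × Γ → ℝ)
    (l : Combinatorics.Line (Fin κ) (Fin n)) :
    ∑ t : (Θ × Γ) × (Fin n → Fin κ → Ξ), ∏ j : Fin κ, dnG b g t (l j) =
      ∑ ζ : Fin n → Fin κ → Ξ,
        dnPsi κ g (∑ i ∈ univ.filter (fun i => l.idxFun i = none), ∑ m, b (ζ i m)) := by
  classical
  rw [Fintype.sum_prod_type_right]
  refine Finset.sum_congr rfl (fun ζ _ => ?_)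
  rw [← dnPsi_shift κ g _ (∑ i ∈ univ.filter (fun i => ¬ l.idxFun i = none),
    (((l.idxFun i).elim 0 (fun a => (a : ℕ))) : ℕ) • ∑ m, b (ζ i m))]
  refine Finset.sum_congr rfl (fun p _ => Finset.prod_congr rfl (fun j _ => ?_))
  unfold dnG
  congr 3
  rw [← Finset.sum_filter_add_sum_filter_not univ (fun i => l.idxFun i = none), add_comm,
    Finset.smul_sum]
  congr 1
  · refine Finset.sum_congr rfl (fun i hi => ?_)
    have h1 := (Finset.mem_filter.1 hi).2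
    have h2 : (l j) i = (l.idxFun i).getD j := rfl
    rw [h2]
    cases h3 : l.idxFun i with
    | none => exact absurd h3 h1
    | some a => rfl
  · refine Finset.sum_congr rfl (fun i hi => ?_)
    have h1 := (Finset.mem_filter.1 hi).2
    have h2 : (l j) i = (l.idxFun i).getD j := rfl
    rw [h2, h1]
    rfl

theorem dense_prop (κ : ℕ) (hκ : 1 ≤ κ) (hD : DHJ (Fin κ)) (δ : ℝ) (hδ : 0 < δ) :
    ∃ n : ℕ, 1 ≤ n ∧ ∃ c₁ : ℝ, 0 < c₁ ∧
    ∀ (Θ Γ Ξ : Type) [Fintype Θ] [Nonempty Θ] [Fintype Γ] [AddCommGroup Γ] [Fintype Ξ] [Nonempty Ξ]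
      (b : Ξ → Γ) (g : Θ × Γ → ℝ), (∀ p, 0 ≤ g p ∧ g p ≤ 1) →
      δ ≤ ∑ p, unif (Θ × Γ) p * g p → c₁ ≤ Lam κ (lawN n b) g := by
  classical
  obtain ⟨n0, hn0⟩ := hD (δ / 2 / 2) (by linarith)
  refine ⟨max n0 1, le_max_right _ _, ?_⟩
  have hn1 : 1 ≤ max n0 1 := le_max_right _ _
  have hnn : ∀ A : Finset (Fin (max n0 1) → Fin κ), δ / 2 / 2 ≤ dens A →
      ∃ l : Combinatorics.Line (Fin κ) (Fin (max n0 1)), ∀ x : Fin κ, l x ∈ A := by
    intro A hA
    exact hn0 (Fin (max n0 1)) (by rw [Fintype.card_fin]; exact le_max_left _ _) A hA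
  generalize max n0 1 = n at hn1 hnn
  have hcT : (0 : ℝ) < Fintype.card (Fin n → Option (Fin κ)) := by
    exact_mod_cast Fintype.card_pos
  have hnr : (0 : ℝ) < n := by exact_mod_cast hn1
  refine ⟨δ / 2 / (Fintype.card (Fin n → Option (Fin κ)) : ℝ) * (δ / 2 / 2) ^ κ / (n : ℝ) ^ κ,
    by positivity, ?_⟩
  intro Θ Γ Ξ _ _ _ _ _ _ b g hg hav
  obtain ⟨l, hl⟩ := dn_line hκ hn1 δ hδ hnn b g hg hav
  rw [dn_line_sum b g l] at hl
  unfold lawN
  rw [dn_Lam]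
  -- the set of variables of the line
  set J := univ.filter (fun i => l.idxFun i = none) with hJ
  have hJ1 : 1 ≤ #J := by
    obtain ⟨i, hi⟩ := l.proper
    exact Finset.card_pos.2 ⟨i, by rw [hJ]; simp [hi]⟩
  have hJn : #J ≤ n := by
    have := Finset.card_le_univ J
    rwa [Fintype.card_fin] at this
  set r : Fin n := ⟨#J - 1, by omega⟩ with hr
  set I : Finset (Fin n) := univ.filter (fun i => i ≤ r) with hI
  have hIc : #I = #J := by
    have h1 : I = Finset.Iic r := by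
      ext i
      simp [hI]
    rw [h1, Fin.card_Iic]
    simp [hr]
    omega
  obtain ⟨e, he⟩ := dn_perm J I hIc.symm
  -- relabelling
  have hrel : ∑ ζ : Fin n → Fin κ → Ξ, dnPsi κ g (∑ i ∈ J, ∑ m, b (ζ i m)) =
      ∑ ξ : Fin κ → Fin n → Ξ, dnPsi κ g (∑ m, ∑ i ∈ I, b (ξ m i)) := by
    have hbij : ∀ ξ : Fin κ → Fin n → Ξ, ∑ i ∈ J, ∑ m, b (ξ m (e i)) =
        ∑ m, ∑ i ∈ I, b (ξ m i) := by
      intro ξ
      rw [Finset.sum_comm]
      refine Finset.sum_congr rfl (fun m _ => ?_)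
      exact Finset.sum_equiv e he (fun i _ => rfl)
    let E : (Fin κ → Fin n → Ξ) ≃ (Fin n → Fin κ → Ξ) :=
      { toFun := fun ξ i m => ξ m (e i)
        invFun := fun ζ m i => ζ (e.symm i) m
        left_inv := fun ξ => by
          funext m i
          simp
        right_inv := fun ζ => by
          funext i m
          simp }
    rw [← Equiv.sum_comp E]
    refine Finset.sum_congr rfl (fun ξ _ => ?_)
    rw [← hbij ξ]
    rfl
  -- keep only `r`
  have hkeep : ∑ ξ : Fin κ → Fin n → Ξ, dnPsi κ g (∑ m, ∑ i ∈ I, b (ξ m i)) ≤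
      ∑ ω : Fin κ → Fin n × (Fin n → Ξ),
        dnPsi κ g (∑ m, ∑ i ∈ univ.filter (fun i => i ≤ (ω m).1), b ((ω m).2 i)) := by
    let F : (Fin κ → Fin n → Ξ) → (Fin κ → Fin n × (Fin n → Ξ)) := fun ξ m => (r, ξ m)
    have hF : Function.Injective F := by
      intro ξ ξ' h
      funext m
      have := congrFun h m
      exact (Prod.ext_iff.1 this).2
    calc ∑ ξ : Fin κ → Fin n → Ξ, dnPsi κ g (∑ m, ∑ i ∈ I, b (ξ m i))
        = ∑ ω ∈ univ.image F,
          dnPsi κ g (∑ m, ∑ i ∈ univ.filter (fun i => i ≤ (ω m).1), b ((ω m).2 i)) := by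
          rw [Finset.sum_image (fun a _ b _ h => hF h)]
      _ ≤ _ := Finset.sum_le_sum_of_subset_of_nonneg (Finset.subset_univ _)
          (fun ω _ _ => dnPsi_nonneg κ g (fun p => (hg p).1) _)
  rw [hrel] at hl
  have hle := le_trans hl hkeep
  have hcard1 : (Fintype.card ((Θ × Γ) × (Fin n → Fin κ → Ξ)) : ℝ) =
      (Fintype.card (Θ × Γ) : ℝ) * ((Fintype.card Ξ : ℝ) ^ κ) ^ n := by
    rw [Fintype.card_prod (Θ × Γ), Fintype.card_fun, Fintype.card_fun, Fintype.card_fin,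
      Fintype.card_fin]
    push_cast
    ring
  have hcard2 : (Fintype.card (Fin n × (Fin n → Ξ)) : ℝ) = (n : ℝ) * (Fintype.card Ξ : ℝ) ^ n := by
    rw [Fintype.card_prod, Fintype.card_fun, Fintype.card_fin]
    push_cast
    ring
  have hP : (0 : ℝ) < Fintype.card (Θ × Γ) := by exact_mod_cast Fintype.card_pos
  have hX : (0 : ℝ) < Fintype.card Ξ := by exact_mod_cast Fintype.card_pos
  rw [hcard1] at hle
  rw [hcard2, le_div_iff₀ (by positivity)]
  refine le_trans (le_of_eq ?_) hle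
  have hpp : ((Fintype.card Ξ : ℝ) ^ n) ^ κ = ((Fintype.card Ξ : ℝ) ^ κ) ^ n := by
    rw [← pow_mul, ← pow_mul, mul_comm]
  rw [mul_pow, hpp]
  field_simp

end Pool.Agent.H16.GPS
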