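import Mathlib

/-!
GPS (MP_c183ae_nt): definitions for the density Hales-Jewett block.
Words are functions `ι → α`; the enlarged alphabet is `Option (Fin k)` with `none` as the extra letter `⋆`.
Lines and subspaces are those of Mathlib (`Combinatorics.Line`, `Combinatorics.Subspace`).
-/

set_option autoImplicit false

open Finset

namespace Pool.Agent.H16.GPS

/-- density of a finite set in a finite type -/
noncomputable def dens {X : Type} [Fintype X] (A : Finset X) : ℝ :=
  (#A : ℝ) / (Fintype.card X : ℝ)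

/-- density Hales-Jewett theorem for the alphabet `α` -/
def DHJ (α : Type) [Fintype α] : Prop :=
  ∀ δ : ℝ, 0 < δ → ∃ n : ℕ, ∀ (ι : Type) [Fintype ι] [DecidableEq ι], n ≤ Fintype.card ι →
    ∀ A : Finset (ι → α), δ ≤ dens A → ∃ l : Combinatorics.Line α ι, ∀ x : α, l x ∈ A

/-- multidimensional density Hales-Jewett theorem for the alphabet `α` -/
def MDHJ (α : Type) [Fintype α] : Prop :=
  ∀ (m : ℕ) (δ : ℝ), 0 < δ → ∃ n : ℕ, ∀ (ι : Type) [Fintype ι] [DecidableEq ι],
    n ≤ Fintype.card ι → ∀ A : Finset (ι → α), δ ≤ dens A →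
      ∃ V : Combinatorics.Subspace (Fin m) α ι, ∀ x : Fin m → α, V x ∈ A

/-- replace every letter `⋆ = none` by the letter `i` -/
def col {k : ℕ} {ι : Type} (i : Fin k) (w : ι → Option (Fin k)) : ι → Option (Fin k) :=
  fun j => some ((w j).getD i)

/-- `i`-insensitive set: closed under exchanging the letters `i` and `⋆` -/
def Insens {k : ℕ} {ι : Type} (i : Fin k) (D : Finset (ι → Option (Fin k))) : Prop :=
  ∀ w, w ∈ D ↔ col i w ∈ D

/-- a set of words without combinatorial line -/
def LineFree {α ι : Type} (A : Finset (ι → α)) : Prop :=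
  ∀ l : Combinatorics.Line α ι, ∃ x : α, l x ∉ A

/-- left section `{x | (x, y) ∈ A}` -/
noncomputable def secL {α ι κ : Type} [Fintype α] [Fintype ι] [DecidableEq ι]
    (A : Finset (ι ⊕ κ → α)) (y : κ → α) : Finset (ι → α) := by
  classical exact univ.filter (fun x => Sum.elim x y ∈ A)

/-- right section `{y | (x, y) ∈ A}` -/
noncomputable def secR {α ι κ : Type} [Fintype α] [Fintype κ] [DecidableEq κ]
    (A : Finset (ι ⊕ κ → α)) (x : ι → α) : Finset (κ → α) := by
  classical exact univ.filter (fun y => Sum.elim x y ∈ A)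

lemma mem_secL {α ι κ : Type} [Fintype α] [Fintype ι] [DecidableEq ι]
    (A : Finset (ι ⊕ κ → α)) (y : κ → α) (x : ι → α) : x ∈ secL A y ↔ Sum.elim x y ∈ A := by
  unfold secL; simp

lemma mem_secR {α ι κ : Type} [Fintype α] [Fintype κ] [DecidableEq κ]
    (A : Finset (ι ⊕ κ → α)) (x : ι → α) (y : κ → α) : y ∈ secR A x ↔ Sum.elim x y ∈ A := by
  unfold secR; simp

lemma dens_nonneg {X : Type} [Fintype X] (A : Finset X) : 0 ≤ dens A := by
  unfold dens; positivity

lemma dens_le_one {X : Type} [Fintype X] (A : Finset X) : dens A ≤ 1 := by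
  unfold dens
  apply div_le_one_of_le₀ _ (Nat.cast_nonneg _)
  exact_mod_cast Finset.card_le_univ A

lemma dens_mono {X : Type} [Fintype X] {A B : Finset X} (h : A ⊆ B) : dens A ≤ dens B := by
  unfold dens
  apply div_le_div_of_nonneg_right _ (Nat.cast_nonneg _)
  exact_mod_cast Finset.card_le_card h

end Pool.Agent.H16.GPS
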